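import Pool.Agent.Helper85.IA.St

/-!
# Project IA, part N, module CON: concentration
-/

set_option autoImplicit false

namespace Pool.Agent.Helper28.IA85

open Finset Pool.Agent.Helper93.IA Pool.Agent.Helper85.IA

section
variable {α β γ : Type} [Fintype α] [Fintype β] [Fintype γ] [DecidableEq α] [DecidableEq β]
  [DecidableEq γ]

private theorem osc {f : (α × β → Option γ) → ℝ} {S : Finset (α × β)} (h : Loc f S)
    (i : α × β) (σ : α × β → Option γ) (u u' : Option γ) :
    |f (Function.update σ i u) - f (Function.update σ i u')| ≤ 4 := by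
  have h1 := abs_le.1 (h.1 σ i u)
  have h2 := abs_le.1 (h.1 σ i u')
  rw [abs_le]
  constructor <;> linarith

private theorem sqle {f : (α × β → Option γ) → ℝ} {S : Finset (α × β)} (h : Loc f S)
    (i : α × β) (σ : α × β → Option γ) (u : Option γ) :
    (f (Function.update σ i u) - f (Function.update σ i none)) ^ 2 ≤ 4 := by
  have h1 := h.1 σ i u
  rw [← sq_abs]
  have h0 := abs_nonneg (f (Function.update σ i u) - f (Function.update σ i none))
  nlinarith

private theorem var1 {ε μ : ℝ} {y : α → β → γ → ℝ} (hy : Yd ε μ y)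
    {f : (α × β → Option γ) → ℝ} {S : Finset (α × β)} (h : Loc f S) (i : α × β)
    (σ : α × β → Option γ) :
    ∑ u, wt y i u * (f (Function.update σ i u) - f (Function.update σ i none)) ^ 2 ≤ 4 := by
  calc ∑ u, wt y i u * (f (Function.update σ i u) - f (Function.update σ i none)) ^ 2
      ≤ ∑ u, wt y i u * 4 :=
        Finset.sum_le_sum fun u _ => mul_le_mul_of_nonneg_left (sqle h i σ u) (wt_nonneg hy i u)
    _ = 4 := by rw [← Finset.sum_mul, wt_sum, one_mul]

private theorem var2 {ε μ : ℝ} {y : α → β → γ → ℝ} (hy : Yd ε μ y) (hμ : 0 ≤ μ)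
    {f : (α × β → Option γ) → ℝ} {S : Finset (α × β)} (h : Loc f S) (i : α × β) (hi : i ∉ S)
    (σ : α × β → Option γ) :
    ∑ u, wt y i u * (f (Function.update σ i u) - f (Function.update σ i none)) ^ 2 ≤ 8 * μ := by
  obtain ⟨r, r', hr⟩ := h.2 σ i hi
  have key : ∀ u, wt y i u * (f (Function.update σ i u) - f (Function.update σ i none)) ^ 2 ≤
      (if u = r then 4 * μ else 0) + (if u = r' then 4 * μ else 0) := by
    intro u
    have hR : 0 ≤ (if u = r then 4 * μ else 0) + (if u = r' then 4 * μ else 0) := by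
      have h4 : 0 ≤ 4 * μ := by linarith
      refine add_nonneg ?_ ?_ <;> split_ifs <;> first | exact h4 | exact le_rfl
    cases u with
    | none => simpa using hR
    | some c =>
      by_cases h1 : some c = r
      · have h3 : wt y i (some c) * (f (Function.update σ i (some c)) -
            f (Function.update σ i none)) ^ 2 ≤ μ * 4 :=
          mul_le_mul (hy.le i.1 i.2 c) (sqle h i σ _) (sq_nonneg _) hμ
        rw [if_pos h1]
        have h5 : 0 ≤ (if some c = r' then 4 * μ else 0) := by
          split_ifs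
          · linarith
          · exact le_rfl
        linarith
      · by_cases h2 : some c = r'
        · have h3 : wt y i (some c) * (f (Function.update σ i (some c)) -
              f (Function.update σ i none)) ^ 2 ≤ μ * 4 :=
            mul_le_mul (hy.le i.1 i.2 c) (sqle h i σ _) (sq_nonneg _) hμ
          rw [if_neg h1, if_pos h2]
          linarith
        · have h3 := hr (some c) h1 h2
          rw [h3]
          simpa using hR
  calc ∑ u, wt y i u * (f (Function.update σ i u) - f (Function.update σ i none)) ^ 2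
      ≤ ∑ u, ((if u = r then 4 * μ else 0) + (if u = r' then 4 * μ else 0)) :=
        Finset.sum_le_sum fun u _ => key u
    _ = 8 * μ := by
        rw [Finset.sum_add_distrib, Finset.sum_ite_eq', Finset.sum_ite_eq']
        simp only [mem_univ, if_true]
        ring

end

private theorem numb {l η Λ n V : ℝ} (hn : 0 ≤ n) (hl : 0 ≤ l)
    (hl2 : l * (16 * (1 + Λ)) ≤ η) (hV : V ≤ 8 * n * (1 + Λ)) :
    -l * (η * n) + l ^ 2 * V ≤ -(l * η / 2) * n := by
  have h1 : l ^ 2 * V ≤ l ^ 2 * (8 * n * (1 + Λ)) := mul_le_mul_of_nonneg_left hV (sq_nonneg l)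
  have h2 : l ^ 2 * (8 * n * (1 + Λ)) = (l * n / 2) * (l * (16 * (1 + Λ))) := by ring
  have h3 : (l * n / 2) * (l * (16 * (1 + Λ))) ≤ (l * n / 2) * η :=
    mul_le_mul_of_nonneg_left hl2 (by positivity)
  nlinarith

theorem hCON : StBRN → StCON := by
  intro hBRN Λ η hΛ hη
  set l : ℝ := min (1 / 4) (η / (16 * (1 + Λ))) with hl
  have hl0 : 0 < l := lt_min (by norm_num) (by positivity)
  have hl4 : l * 4 ≤ 1 := by
    have : l ≤ 1 / 4 := min_le_left _ _
    linarith
  have hl16 : l * (16 * (1 + Λ)) ≤ η := by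
    have h1 : l ≤ η / (16 * (1 + Λ)) := min_le_right _ _
    rwa [le_div_iff₀ (by positivity)] at h1
  refine ⟨l * η / 2, by positivity, ?_⟩
  intro α β γ _ _ _ _ _ _ n ε y f S hn cα cβ hy hf hS
  have hn0 : (0 : ℝ) < n := by exact_mod_cast hn
  have hμ : 0 ≤ Λ / n := by positivity
  have h := hBRN (α × β) (fun _ => Option γ) (wt y) f 4 (η * n) l
    (fun p => if p ∈ S then 4 else 8 * (Λ / n)) (fun p v => wt_nonneg hy p v)
    (fun p => wt_sum y p) (fun p σ u u' => osc hf p σ u u')
    (fun p σ => ⟨f (Function.update σ p none), by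
      split_ifs with hp
      · exact var1 hy hf p σ
      · exact var2 hy hμ hf p hp σ⟩) hl0.le hl4
  refine (show E y (fun σ => if E y f + η * n ≤ f σ then 1 else 0) ≤ _ from h).trans ?_
  refine Real.exp_le_exp.2 (numb hn0.le hl0.le hl16 ?_)
  have h1 : ∑ p : α × β, (if p ∈ S then (4 : ℝ) else 8 * (Λ / n)) ≤
      ∑ p : α × β, ((if p ∈ S then (4 : ℝ) else 0) + 8 * (Λ / n)) := by
    refine Finset.sum_le_sum fun p _ => ?_
    split_ifs
    · linarith
    · linarith
  refine h1.trans ?_
  rw [Finset.sum_add_distrib, Finset.sum_ite_mem, Finset.univ_inter, Finset.sum_const,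
    Finset.sum_const, Finset.card_univ, Fintype.card_prod, cα, cβ, nsmul_eq_mul, nsmul_eq_mul]
  have h2 : (S.card : ℝ) ≤ 2 * n := by exact_mod_cast hS
  have h3 : ((n * n : ℕ) : ℝ) * (8 * (Λ / n)) = 8 * n * Λ := by
    push_cast
    field_simp
  rw [h3]
  nlinarith

end Pool.Agent.Helper28.IA85
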